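import Pool.Agent.N557.QW.FConv

/-!
# Amalgamated free products over QWEP subalgebras need not be QWEP

There are a QWEP von Neumann algebra `A` with a faithful normal tracial state, on a separable
Hilbert space, and a QWEP von Neumann subalgebra `B` such that the von Neumann algebra amalgamated
free product of two copies of `A` over `B` is not QWEP. The theorem is the negation of the
statement that the amalgamated free product is QWEP for all such `A` and `B`.

The definitions are in `Pool/Agent/N859/QW/Defs2.lean` (`QWEP`) and `Pool/Agent/N557/QW/Fin.lean`
(`IsTracial`, `IsAmalgFreeProd`).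
-/

set_option autoImplicit false

namespace Pool.Agent.Results.MP_f0269b_an.AmalgamNotQWEP

open Pool.Agent.N557.QWX (Op IsTracial IsAmalgFreeProd)
open Pool.Agent.N859.QX (QWEP)

/-- **The amalgamated free product of two copies of a QWEP finite von Neumann algebra over a QWEP
subalgebra need not be QWEP.** -/
theorem result : ¬ ∀ (H : Type) [NormedAddCommGroup H] [InnerProductSpace ℂ H] [CompleteSpace H]
    [TopologicalSpace.SeparableSpace H] (A B : VonNeumannAlgebra H) (ξ : H),
    IsTracial A ξ → B ≤ A → QWEP A → QWEP B →
    ∀ (K : Type) [NormedAddCommGroup K] [InnerProductSpace ℂ K] [CompleteSpace K]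
      (M : VonNeumannAlgebra K) (η : K) (π : Fin 2 → Op H → Op K),
      IsTracial M η → IsAmalgFreeProd A B ξ M η π → QWEP M :=
  Pool.Agent.N557.QWX.main'

end Pool.Agent.Results.MP_f0269b_an.AmalgamNotQWEP
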